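import Mathlib

/-!
Marginally unstable continuous-time switching systems with sublinear growth.

The system is `y' = q z`, `z' = - q^m z` with a control `q` in `[0,1]` and an exponent `m > 1`:
using the control `q` costs `q^m` in the damping of `z`, and the largest value that `y` can reach
at time `t` is of exact order `t^(1 - 1/m)`.
-/

namespace Pool.Agent.Results.MP_c2c39f_an.SublinearGrowth

open MeasureTheory Set Filter Topology
open scoped ENNReal

/-- A switching law with values in `S`: a map `A : [0,∞) → S` with measurable entries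
(the values `A t` for `t < 0` play no role). -/
def IsLaw {d : ℕ} (S : Set (Matrix (Fin d) (Fin d) ℝ)) (A : ℝ → Matrix (Fin d) (Fin d) ℝ) : Prop :=
  (∀ i j, Measurable fun t => A t i j) ∧ ∀ t, 0 ≤ t → A t ∈ S

/-- A trajectory of the switching system of `S`: a locally absolutely continuous function `x` on
`[0,∞)` with `x' = A(t) x` almost everywhere, for some switching law `A`
(the values `x t` for `t < 0` play no role). -/
def IsTraj {d : ℕ} (S : Set (Matrix (Fin d) (Fin d) ℝ)) (x : ℝ → EuclideanSpace ℝ (Fin d)) : Prop :=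
  ∃ A : ℝ → Matrix (Fin d) (Fin d) ℝ, IsLaw S A ∧
    (∀ T : ℝ, 0 ≤ T → AbsolutelyContinuousOnInterval x 0 T) ∧
    ∀ᵐ t : ℝ, 0 < t → HasDerivAt x (WithLp.toLp 2 ((A t).mulVec (x t).ofLp)) t

/-- The Lyapunov exponent: the supremum of `limsup (1/t) log ‖x(t)‖` over all trajectories. -/
noncomputable def lyapunovExponent {d : ℕ} (S : Set (Matrix (Fin d) (Fin d) ℝ)) : EReal :=
  ⨆ x ∈ {x : ℝ → EuclideanSpace ℝ (Fin d) | IsTraj S x},
    limsup (fun t : ℝ => ((1 / t : ℝ) : EReal) * ENNReal.log ‖x t‖ₑ) atTop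

/-- Marginal instability: the Lyapunov exponent is zero and some trajectory is unbounded. -/
def MarginallyUnstable {d : ℕ} (S : Set (Matrix (Fin d) (Fin d) ℝ)) : Prop :=
  lyapunovExponent S = 0 ∧
    ∃ x : ℝ → EuclideanSpace ℝ (Fin d), IsTraj S x ∧ ¬ ∃ C : ℝ, ∀ t : ℝ, 0 ≤ t → ‖x t‖ ≤ C

/-- `M(t)`: the supremum of `‖x(t)‖` over all trajectories with `‖x(0)‖ ≤ 1`. -/
noncomputable def maxGrowth {d : ℕ} (S : Set (Matrix (Fin d) (Fin d) ℝ)) (t : ℝ) : ℝ≥0∞ :=
  ⨆ x ∈ {x : ℝ → EuclideanSpace ℝ (Fin d) | IsTraj S x ∧ ‖x 0‖ ≤ 1}, ‖x t‖ₑ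

/-- Sublinear growth: `M(t)/t → 0`. -/
def HasSublinearGrowth {d : ℕ} (S : Set (Matrix (Fin d) (Fin d) ℝ)) : Prop :=
  Tendsto (fun t : ℝ => maxGrowth S t / ENNReal.ofReal t) atTop (𝓝 0)

/-! ### The example -/

/-- the matrix with parameter `q` -/
noncomputable def mat (m q : ℝ) : Matrix (Fin 2) (Fin 2) ℝ := !![0, q; 0, -(q ^ m)]

/-- the compact family -/
noncomputable def fam (m : ℝ) : Set (Matrix (Fin 2) (Fin 2) ℝ) := mat m '' Icc 0 1

lemma mat_cont {m : ℝ} (hm : 1 < m) : Continuous (mat m) := by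
  have h : Continuous fun q : ℝ => -(q ^ m) := (Real.continuous_rpow_const (by linarith)).neg
  have key : ∀ i j, Continuous fun q : ℝ => mat m q i j := by
    intro i j
    fin_cases i <;> fin_cases j
    · simpa [mat] using (continuous_const : Continuous fun _ : ℝ => (0:ℝ))
    · have h2 : Continuous fun q : ℝ => q := continuous_id
      exact h2
    · simpa [mat] using (continuous_const : Continuous fun _ : ℝ => (0:ℝ))
    · simpa [mat] using h
  exact continuous_matrix key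

lemma fam_compact {m : ℝ} (hm : 1 < m) : IsCompact (fam m) :=
  isCompact_Icc.image (mat_cont hm)

section control

variable {m : ℝ} {q : ℝ → ℝ}

/-- accumulated cost -/
noncomputable def Q (m : ℝ) (q : ℝ → ℝ) (t : ℝ) : ℝ := ∫ s in (0:ℝ)..t, q s ^ m

/-- the damping factor -/
noncomputable def Ef (m : ℝ) (q : ℝ → ℝ) (t : ℝ) : ℝ := Real.exp (-(Q m q t))

lemma rbd (hm : 1 < m) (h01 : ∀ t, 0 ≤ q t ∧ q t ≤ 1) (t : ℝ) : 0 ≤ q t ^ m ∧ q t ^ m ≤ 1 :=
  ⟨Real.rpow_nonneg (h01 t).1 m, Real.rpow_le_one (h01 t).1 (h01 t).2 (by linarith)⟩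

lemma intble_of_bdd {f : ℝ → ℝ} (hf : Measurable f) {C : ℝ} (hb : ∀ t, |f t| ≤ C) (a b : ℝ) :
    IntervalIntegrable f volume a b := by
  have h : IntervalIntegrable (fun _ : ℝ => C) volume a b := intervalIntegrable_const
  exact h.mono_fun hf.aestronglyMeasurable (Eventually.of_forall fun t => by
    simpa [Real.norm_eq_abs] using (hb t).trans (le_abs_self C))

lemma loc_of_bdd {f : ℝ → ℝ} (hf : Measurable f) {C : ℝ} (hb : ∀ t, |f t| ≤ C) :
    LocallyIntegrable f volume := by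
  have h : LocallyIntegrable (fun _ : ℝ => C) volume := locallyIntegrable_const C
  exact h.mono hf.aestronglyMeasurable (Eventually.of_forall fun t => by
    simpa [Real.norm_eq_abs] using (hb t).trans (le_abs_self C))

lemma r_meas (hq : Measurable q) : Measurable fun t => q t ^ m := by fun_prop

lemma r_abs (hm : 1 < m) (h01 : ∀ t, 0 ≤ q t ∧ q t ≤ 1) (t : ℝ) : |q t ^ m| ≤ 1 := by
  rw [abs_of_nonneg (rbd hm h01 t).1]; exact (rbd hm h01 t).2

lemma Q_diff (hm : 1 < m) (hq : Measurable q) (h01 : ∀ t, 0 ≤ q t ∧ q t ≤ 1) (s t : ℝ) :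
    Q m q t - Q m q s = ∫ u in s..t, q u ^ m := by
  unfold Q
  rw [intervalIntegral.integral_interval_sub_left]
  · exact intble_of_bdd (r_meas hq) (r_abs hm h01) _ _
  · exact intble_of_bdd (r_meas hq) (r_abs hm h01) _ _

lemma Q_mono (hm : 1 < m) (hq : Measurable q) (h01 : ∀ t, 0 ≤ q t ∧ q t ≤ 1) {s t : ℝ}
    (hst : s ≤ t) : 0 ≤ Q m q t - Q m q s ∧ Q m q t - Q m q s ≤ t - s := by
  rw [Q_diff hm hq h01]
  constructor
  · exact intervalIntegral.integral_nonneg hst fun u _ => (rbd hm h01 u).1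
  · have := intervalIntegral.integral_mono_on hst (intble_of_bdd (r_meas hq) (r_abs hm h01) s t)
      (intervalIntegrable_const (c := (1:ℝ))) (fun u _ => (rbd hm h01 u).2)
    simpa using this

lemma Q_nonneg (hm : 1 < m) (hq : Measurable q) (h01 : ∀ t, 0 ≤ q t ∧ q t ≤ 1) {t : ℝ}
    (ht : 0 ≤ t) : 0 ≤ Q m q t := by
  have := (Q_mono hm hq h01 ht).1
  simpa [Q] using this

lemma Ef_pos (t : ℝ) : 0 < Ef m q t := Real.exp_pos _

lemma Ef_zero : Ef m q 0 = 1 := by simp [Ef, Q]

lemma Ef_le_one (hm : 1 < m) (hq : Measurable q) (h01 : ∀ t, 0 ≤ q t ∧ q t ≤ 1) {t : ℝ}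
    (ht : 0 ≤ t) : Ef m q t ≤ 1 := by
  unfold Ef
  rw [Real.exp_le_one_iff]
  linarith [Q_nonneg hm hq h01 ht]

lemma Ef_lip (hm : 1 < m) (hq : Measurable q) (h01 : ∀ t, 0 ≤ q t ∧ q t ≤ 1) {s t : ℝ}
    (hs : 0 ≤ s) (hst : s ≤ t) : |Ef m q t - Ef m q s| ≤ t - s := by
  obtain ⟨h1, h2⟩ := Q_mono hm hq h01 hst
  have h3 : Ef m q t = Ef m q s * Real.exp (-(Q m q t - Q m q s)) := by
    unfold Ef; rw [← Real.exp_add]; congr 1; ring
  have h4 : 1 - (Q m q t - Q m q s) ≤ Real.exp (-(Q m q t - Q m q s)) := by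
    have := Real.add_one_le_exp (-(Q m q t - Q m q s)); linarith
  have h5 : Real.exp (-(Q m q t - Q m q s)) ≤ 1 := by
    rw [Real.exp_le_one_iff]; linarith
  have h6 := Ef_pos (m := m) (q := q) s
  have h7 := Ef_le_one hm hq h01 hs
  rw [h3, abs_le]
  constructor <;> nlinarith

lemma Ef_ac (hm : 1 < m) (hq : Measurable q) (h01 : ∀ t, 0 ≤ q t ∧ q t ≤ 1) {T : ℝ}
    (hT : 0 ≤ T) : AbsolutelyContinuousOnInterval (Ef m q) 0 T := by
  apply LipschitzOnWith.absolutelyContinuousOnInterval (K := 1)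
  rw [uIcc_of_le hT]
  apply LipschitzOnWith.of_dist_le_mul
  intro x hx y hy
  rw [NNReal.coe_one, one_mul, Real.dist_eq, Real.dist_eq]
  rcases le_total x y with h | h
  · rw [abs_sub_comm, abs_sub_comm x y, abs_of_nonneg (sub_nonneg.mpr h)]
    exact Ef_lip hm hq h01 hx.1 h
  · rw [abs_of_nonneg (sub_nonneg.mpr h)]
    exact Ef_lip hm hq h01 hy.1 h

lemma Q_ae (hm : 1 < m) (hq : Measurable q) (h01 : ∀ t, 0 ≤ q t ∧ q t ≤ 1) :
    ∀ᵐ t : ℝ, HasDerivAt (Q m q) (q t ^ m) t := by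
  have hl : LocallyIntegrable (fun t => q t ^ m) volume := loc_of_bdd (r_meas hq) (r_abs hm h01)
  filter_upwards [LocallyIntegrable.ae_hasDerivAt_integral hl] with t ht
  exact ht 0

lemma Ef_ae (hm : 1 < m) (hq : Measurable q) (h01 : ∀ t, 0 ≤ q t ∧ q t ≤ 1) :
    ∀ᵐ t : ℝ, HasDerivAt (Ef m q) (-(q t ^ m) * Ef m q t) t := by
  filter_upwards [Q_ae hm hq h01] with t ht
  have := (HasDerivAt.fun_neg ht).exp
  unfold Ef
  convert this using 1
  ring

lemma Ef_meas (hm : 1 < m) (hq : Measurable q) (h01 : ∀ t, 0 ≤ q t ∧ q t ≤ 1) :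
    Measurable (Ef m q) := by
  have : Continuous (Q m q) :=
    intervalIntegral.continuous_primitive (fun a b => intble_of_bdd (r_meas hq) (r_abs hm h01) a b) 0
  unfold Ef
  exact (Real.continuous_exp.comp this.neg).measurable

lemma Ef_int (hm : 1 < m) (hq : Measurable q) (h01 : ∀ t, 0 ≤ q t ∧ q t ≤ 1) {T : ℝ}
    (hT : 0 ≤ T) : ∫ s in (0:ℝ)..T, q s ^ m * Ef m q s = 1 - Ef m q T := by
  have h := (Ef_ac hm hq h01 hT).integral_deriv_eq_sub
  rw [Ef_zero] at h
  have h2 : ∫ s in (0:ℝ)..T, q s ^ m * Ef m q s = ∫ s in (0:ℝ)..T, -(deriv (Ef m q) s) := by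
    apply intervalIntegral.integral_congr_ae
    filter_upwards [Ef_ae hm hq h01] with t ht _
    rw [ht.deriv]; ring
  rw [h2, intervalIntegral.integral_neg, h]; ring

lemma young {m x l : ℝ} (hm : 1 < m) (hx : 0 ≤ x) (hl : 0 < l) :
    x ≤ l ^ (1 - m) / m * x ^ m + l * (1 - 1 / m) := by
  have hc : m.HolderConjugate (Real.conjExponent m) := Real.HolderConjugate.conjExponent hm
  have h := Real.young_inequality_of_nonneg (a := x / l) (b := 1) (by positivity) zero_le_one hc
  have h1 : 1 / m.conjExponent = 1 - 1 / m := by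
    rw [Real.conjExponent]; field_simp
  rw [Real.one_rpow, h1, mul_one, Real.div_rpow hx hl.le] at h
  have h2 := mul_le_mul_of_nonneg_left h hl.le
  have h3 : l * (x / l) = x := by field_simp
  rw [h3] at h2
  refine h2.trans (le_of_eq ?_)
  rw [Real.rpow_sub hl, Real.rpow_one]
  have : l ^ m ≠ 0 := (Real.rpow_pos_of_pos hl m).ne'
  field_simp

lemma qE_meas (hm : 1 < m) (hq : Measurable q) (h01 : ∀ t, 0 ≤ q t ∧ q t ≤ 1) :
    Measurable fun t => q t * Ef m q t := hq.mul (Ef_meas hm hq h01)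

lemma Ef_intble (hm : 1 < m) (hq : Measurable q) (h01 : ∀ t, 0 ≤ q t ∧ q t ≤ 1) {g : ℝ → ℝ}
    (hg : Measurable g) (hg1 : ∀ t, |g t| ≤ 1) {T : ℝ} (hT : 0 ≤ T) :
    IntervalIntegrable (fun t => g t * Ef m q t) volume 0 T := by
  have h : IntervalIntegrable (fun _ : ℝ => (1:ℝ)) volume 0 T := intervalIntegrable_const
  refine h.mono_fun (hg.mul (Ef_meas hm hq h01)).aestronglyMeasurable ?_
  refine (ae_restrict_iff' measurableSet_uIoc).mpr (Eventually.of_forall fun t ht => ?_)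
  rw [uIoc_of_le hT] at ht
  have h1 := Ef_le_one hm hq h01 ht.1.le
  have h2 := Ef_pos (m := m) (q := q) t
  simp only [norm_mul, Real.norm_eq_abs, abs_one]
  rw [abs_of_pos h2]
  have := hg1 t
  have h3 := abs_nonneg (g t)
  nlinarith

lemma q_abs (h01 : ∀ t, 0 ≤ q t ∧ q t ≤ 1) (t : ℝ) : |q t| ≤ 1 := by
  rw [abs_of_nonneg (h01 t).1]; exact (h01 t).2

lemma gain_le (hm : 1 < m) (hq : Measurable q) (h01 : ∀ t, 0 ≤ q t ∧ q t ≤ 1) {T : ℝ}
    (hT : 0 < T) : ∫ s in (0:ℝ)..T, q s * Ef m q s ≤ T ^ (1 - 1 / m) := by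
  set l : ℝ := T ^ (-(1 / m)) with hl
  have hl0 : 0 < l := Real.rpow_pos_of_pos hT _
  have hm0 : 0 < m := by linarith
  have i1 := Ef_intble hm hq h01 hq (q_abs h01) hT.le
  have i2 := Ef_intble hm hq h01 (r_meas (m := m) hq) (r_abs hm h01) hT.le
  have i3 : IntervalIntegrable (fun _ : ℝ => l * (1 - 1 / m)) volume 0 T := intervalIntegrable_const
  have h1 : ∫ s in (0:ℝ)..T, q s * Ef m q s ≤
      ∫ s in (0:ℝ)..T, (l ^ (1 - m) / m * (q s ^ m * Ef m q s) + l * (1 - 1 / m)) := by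
    apply intervalIntegral.integral_mono_on hT.le i1 ((i2.const_mul _).add i3)
    intro t ht
    have hy := young hm (h01 t).1 hl0
    have h2 := Ef_le_one hm hq h01 ht.1
    have h3 := Ef_pos (m := m) (q := q) t
    have h4 : 0 ≤ l * (1 - 1 / m) := by
      apply mul_nonneg hl0.le
      rw [sub_nonneg, div_le_one hm0]; exact hm.le
    have h5 := mul_le_mul_of_nonneg_right hy h3.le
    nlinarith
  rw [intervalIntegral.integral_add (i2.const_mul _) i3, intervalIntegral.integral_const_mul,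
    Ef_int hm hq h01 hT.le, intervalIntegral.integral_const] at h1
  have h6 : l ^ (1 - m) = T ^ (1 - 1 / m) := by
    rw [hl, ← Real.rpow_mul hT.le]; congr 1; field_simp; ring
  have h7 : T * l = T ^ (1 - 1 / m) := by
    rw [hl, sub_eq_add_neg, Real.rpow_add hT, Real.rpow_one]
  have h8 := Ef_pos (m := m) (q := q) T
  have h9 : 0 < T ^ (1 - 1 / m) := Real.rpow_pos_of_pos hT _
  rw [h6, smul_eq_mul, sub_zero, ← mul_assoc, h7] at h1
  have h10 : T ^ (1 - 1 / m) / m * (1 - Ef m q T) ≤ T ^ (1 - 1 / m) / m := by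
    have : 0 < T ^ (1 - 1 / m) / m := by positivity
    nlinarith
  have h11 : T ^ (1 - 1 / m) / m + T ^ (1 - 1 / m) * (1 - 1 / m) = T ^ (1 - 1 / m) := by
    field_simp; ring
  linarith

end control


section traj

variable {m : ℝ}


lemma nrm_le (x : EuclideanSpace ℝ (Fin 2)) : ‖x‖ ≤ |x 0| + |x 1| := by
  rw [EuclideanSpace.norm_eq, Fin.sum_univ_two, Real.norm_eq_abs, Real.norm_eq_abs]
  rw [Real.sqrt_le_iff]
  constructor
  · positivity
  · have := abs_nonneg (x 0); have := abs_nonneg (x 1); nlinarith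

lemma le_nrm (x : EuclideanSpace ℝ (Fin 2)) (i : Fin 2) : |x i| ≤ ‖x‖ := by
  have := PiLp.norm_apply_le x i
  simpa [Real.norm_eq_abs] using this

lemma ac_const {X : Type*} [PseudoMetricSpace X] (c : X) (a b : ℝ) :
    AbsolutelyContinuousOnInterval (fun _ : ℝ => c) a b := by
  apply LipschitzOnWith.absolutelyContinuousOnInterval (K := 0)
  exact (LipschitzWith.const c).lipschitzOnWith

lemma ac_apply {x : ℝ → EuclideanSpace ℝ (Fin 2)} {a b : ℝ}
    (h : AbsolutelyContinuousOnInterval x a b) (i : Fin 2) :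
    AbsolutelyContinuousOnInterval (fun t => x t i) a b := by
  rw [absolutelyContinuousOnInterval_iff] at h ⊢
  intro ε hε
  obtain ⟨δ, hδ, H⟩ := h ε hε
  refine ⟨δ, hδ, fun E hE hs => lt_of_le_of_lt (Finset.sum_le_sum fun k _ => ?_) (H E hE hs)⟩
  rw [Real.dist_eq, dist_eq_norm]
  have := le_nrm (x (E.2 k).1 - x (E.2 k).2) i
  simpa using this

/-- the trajectory driven by the control `q` -/
noncomputable def X (m : ℝ) (q : ℝ → ℝ) (y z : ℝ) (t : ℝ) : EuclideanSpace ℝ (Fin 2) :=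
  (y + z * ∫ s in (0:ℝ)..t, q s * Ef m q s) • EuclideanSpace.single 0 (1:ℝ) +
    (z * Ef m q t) • EuclideanSpace.single 1 (1:ℝ)

lemma X_zero_apply (m : ℝ) (q : ℝ → ℝ) (y z t : ℝ) :
    X m q y z t 0 = y + z * ∫ s in (0:ℝ)..t, q s * Ef m q s := by simp [X]

lemma X_one_apply (m : ℝ) (q : ℝ → ℝ) (y z t : ℝ) : X m q y z t 1 = z * Ef m q t := by simp [X]

lemma X_traj (hm : 1 < m) {q : ℝ → ℝ} (hq : Measurable q) (h01 : ∀ t, 0 ≤ q t ∧ q t ≤ 1)
    (y z : ℝ) : IsTraj (fam m) (X m q y z) := by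
  refine ⟨fun t => mat m (q t), ⟨?_, ?_⟩, ?_, ?_⟩
  · intro i j
    fin_cases i <;> fin_cases j
    · simp [mat]
    · simpa [mat] using hq
    · simp [mat]
    · simpa [mat] using r_meas (m := m) hq
  · intro t _
    exact ⟨q t, h01 t, rfl⟩
  · intro T hT
    have hg : AbsolutelyContinuousOnInterval (fun t => ∫ s in (0:ℝ)..t, q s * Ef m q s) 0 T :=
      (Ef_intble hm hq h01 hq (q_abs h01) hT).absolutelyContinuousOnInterval_intervalIntegral
        (by simp)
    have h1 : AbsolutelyContinuousOnInterval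
        (fun t => y + z * ∫ s in (0:ℝ)..t, q s * Ef m q s) 0 T :=
      (ac_const y 0 T).fun_add (hg.const_mul z)
    have h2 : AbsolutelyContinuousOnInterval (fun t => z * Ef m q t) 0 T :=
      (Ef_ac hm hq h01 hT).const_mul z
    exact (h1.fun_smul (ac_const _ 0 T)).fun_add (h2.fun_smul (ac_const _ 0 T))
  · -- the integrand need only be considered for positive times
    have hloc : LocallyIntegrable (fun t => q t * Ef m q (max t 0)) volume := by
      refine loc_of_bdd (C := 1) (hq.mul ((Ef_meas hm hq h01).comp (measurable_id.max measurable_const))) ?_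
      intro t
      have h1 := Ef_le_one hm hq h01 (le_max_right t 0)
      have h2 := Ef_pos (m := m) (q := q) (max t 0)
      rw [abs_mul, abs_of_pos h2]
      have h3 := q_abs h01 t
      have h4 := abs_nonneg (q t)
      nlinarith
    filter_upwards [LocallyIntegrable.ae_hasDerivAt_integral hloc, Ef_ae hm hq h01] with t h1 h2 ht
    have h3 : HasDerivAt (fun t => ∫ s in (0:ℝ)..t, q s * Ef m q s) (q t * Ef m q t) t := by
      have h4 := h1 0
      rw [max_eq_left ht.le] at h4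
      refine h4.congr_of_eventuallyEq ?_
      filter_upwards [Ioi_mem_nhds ht] with u hu
      apply intervalIntegral.integral_congr
      intro s hs
      rw [uIcc_of_le (le_of_lt hu)] at hs
      simp only
      rw [max_eq_left hs.1]
    have h5 := ((h3.const_mul z).const_add y).smul_const (EuclideanSpace.single (0 : Fin 2) (1:ℝ))
    have h6 := (h2.const_mul z).smul_const (EuclideanSpace.single (1 : Fin 2) (1:ℝ))
    have h7 := h5.add h6
    have e : (WithLp.toLp 2 ((mat m (q t)).mulVec (X m q y z t).ofLp) : EuclideanSpace ℝ (Fin 2)) =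
        (z * (q t * Ef m q t)) • EuclideanSpace.single (0 : Fin 2) (1:ℝ) +
          (z * (-(q t ^ m) * Ef m q t)) • EuclideanSpace.single (1 : Fin 2) (1:ℝ) := by
      ext i
      fin_cases i
      · simp [mat, Matrix.mulVec, dotProduct, Fin.sum_univ_two, X_zero_apply, X_one_apply]
        ring
      · simp [mat, Matrix.mulVec, dotProduct, Fin.sum_univ_two, X_zero_apply, X_one_apply]
        ring
    rw [e]
    exact h7

/-- Every trajectory is of the form `X`. -/
lemma traj_eq (hm : 1 < m) {x : ℝ → EuclideanSpace ℝ (Fin 2)} (hx : IsTraj (fam m) x) :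
    ∃ q : ℝ → ℝ, Measurable q ∧ (∀ t, 0 ≤ q t ∧ q t ≤ 1) ∧
      ∀ t, 0 ≤ t → x t 0 = x 0 0 + x 0 1 * ∫ s in (0:ℝ)..t, q s * Ef m q s ∧
        x t 1 = x 0 1 * Ef m q t := by
  obtain ⟨A, ⟨hAm, hAS⟩, hac, hder⟩ := hx
  set q : ℝ → ℝ := fun t => A (max t 0) 0 1 with hqdef
  have hq : Measurable q := (hAm 0 1).comp (measurable_id.max measurable_const)
  have hA : ∀ t, 0 ≤ t → A t = mat m (q t) := by
    intro t ht
    obtain ⟨p, hp, he⟩ := hAS t ht
    have : q t = p := by
      simp only [hqdef]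
      rw [max_eq_left ht, ← he]; simp [mat]
    rw [this, he]
  have h01 : ∀ t, 0 ≤ q t ∧ q t ≤ 1 := by
    intro t
    obtain ⟨p, hp, he⟩ := hAS (max t 0) (le_max_right _ _)
    have : q t = p := by
      simp only [hqdef]
      rw [← he]; simp [mat]
    rw [this]; exact hp
  have hd0 : ∀ᵐ t : ℝ, 0 < t → HasDerivAt (fun t => x t 0) (q t * x t 1) t := by
    filter_upwards [hder] with t ht h0
    have h1 := ht h0
    rw [hA t h0.le] at h1
    have h2 := ((EuclideanSpace.proj (𝕜 := ℝ) 0 : EuclideanSpace ℝ (Fin 2) →L[ℝ] ℝ).hasFDerivAt.comp_hasDerivAt t h1)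
    refine h2.congr_deriv ?_
    simp [mat, Matrix.mulVec, dotProduct, Fin.sum_univ_two]
  have hd1 : ∀ᵐ t : ℝ, 0 < t → HasDerivAt (fun t => x t 1) (-(q t ^ m) * x t 1) t := by
    filter_upwards [hder] with t ht h0
    have h1 := ht h0
    rw [hA t h0.le] at h1
    have h2 := ((EuclideanSpace.proj (𝕜 := ℝ) 1 : EuclideanSpace ℝ (Fin 2) →L[ℝ] ℝ).hasFDerivAt.comp_hasDerivAt t h1)
    refine h2.congr_deriv ?_
    simp [mat, Matrix.mulVec, dotProduct, Fin.sum_univ_two]
  have key1 : ∀ t, 0 ≤ t → x t 1 = x 0 1 * Ef m q t := by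
    intro T hT
    set d : ℝ → ℝ := fun t => x t 1 - x 0 1 * Ef m q t with hd
    have hdac : AbsolutelyContinuousOnInterval d 0 T :=
      (ac_apply (hac T hT) 1).fun_sub ((Ef_ac hm hq h01 hT).const_mul _)
    have hdd : ∀ᵐ t : ℝ, 0 < t → HasDerivAt d (-(q t ^ m) * d t) t := by
      filter_upwards [hd1, Ef_ae hm hq h01] with t h1 h2 h0
      have := (h1 h0).sub (h2.const_mul (x 0 1))
      refine this.congr_deriv ?_
      simp only [hd]; ring
    have h3 := (hdac.fun_mul hdac).integral_deriv_eq_sub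
    have h4 : ∫ t in (0:ℝ)..T, deriv (fun x => d x * d x) t ≤ 0 := by
      have h40 : 0 ≤ ∫ t in (0:ℝ)..T, -(deriv (fun x => d x * d x) t) := by
       apply intervalIntegral.integral_nonneg_of_ae_restrict hT
       rw [Filter.EventuallyLE]
       refine (ae_restrict_iff' measurableSet_Icc).mpr ?_
       have hne : ∀ᵐ t : ℝ, t ≠ 0 := by
        simp [ae_iff, measure_singleton]
       filter_upwards [hdd, hne] with t h5 h6 h7
       have h8 := h5 (lt_of_le_of_ne h7.1 (Ne.symm h6))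
       rw [(h8.fun_mul h8).deriv]
       have h9 := (rbd hm h01 t).1
       simp only [Pi.zero_apply]
       nlinarith [mul_nonneg h9 (mul_self_nonneg (d t))]
      rw [intervalIntegral.integral_neg] at h40
      linarith
    rw [h3] at h4
    have h5 : d 0 = 0 := by simp [hd, Ef_zero]
    have h6 : d T * d T ≤ 0 := by simpa [h5] using h4
    have h7 : d T = 0 := by nlinarith [mul_self_nonneg (d T)]
    simp only [hd] at h7
    linarith
  refine ⟨q, hq, h01, fun T hT => ⟨?_, key1 T hT⟩⟩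
  have h3 := (ac_apply (hac T hT) 0).integral_deriv_eq_sub
  have h4 : ∫ t in (0:ℝ)..T, deriv (fun t => x t 0) t =
      ∫ t in (0:ℝ)..T, x 0 1 * (q t * Ef m q t) := by
    apply intervalIntegral.integral_congr_ae
    filter_upwards [hd0] with t h5 h6
    rw [uIoc_of_le hT] at h6
    rw [(h5 h6.1).deriv, key1 t h6.1.le]; ring
  rw [h4, intervalIntegral.integral_const_mul] at h3
  linarith

lemma gain_nonneg {q : ℝ → ℝ} (h01 : ∀ t, 0 ≤ q t ∧ q t ≤ 1) {T : ℝ}
    (hT : 0 ≤ T) : 0 ≤ ∫ s in (0:ℝ)..T, q s * Ef m q s :=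
  intervalIntegral.integral_nonneg hT fun u _ => mul_nonneg (h01 u).1 (Ef_pos u).le

lemma traj_bound (hm : 1 < m) {x : ℝ → EuclideanSpace ℝ (Fin 2)} (hx : IsTraj (fam m) x)
    {t : ℝ} (ht : 0 < t) : ‖x t‖ ≤ ‖x 0‖ * (2 + t ^ (1 - 1 / m)) := by
  obtain ⟨q, hq, h01, H⟩ := traj_eq hm hx
  obtain ⟨h0, h1⟩ := H t ht.le
  refine (nrm_le (x t)).trans ?_
  rw [h0, h1]
  have a0 := le_nrm (x 0) 0
  have a1 := le_nrm (x 0) 1
  have g0 := gain_nonneg (m := m) h01 ht.le
  have g1 := gain_le hm hq h01 ht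
  have e0 := Ef_pos (m := m) (q := q) t
  have e1 := Ef_le_one hm hq h01 ht.le
  have b0 : |x 0 0 + x 0 1 * ∫ s in (0:ℝ)..t, q s * Ef m q s| ≤
      |x 0 0| + |x 0 1| * ∫ s in (0:ℝ)..t, q s * Ef m q s := by
    refine (abs_add_le _ _).trans ?_
    rw [abs_mul, abs_of_nonneg g0]
  have b1 : |x 0 1 * Ef m q t| = |x 0 1| * Ef m q t := by rw [abs_mul, abs_of_pos e0]
  rw [b1]
  have n0 := norm_nonneg (x 0)
  have c1 : |x 0 1| * ∫ s in (0:ℝ)..t, q s * Ef m q s ≤ ‖x 0‖ * t ^ (1 - 1 / m) :=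
    mul_le_mul a1 g1 g0 n0
  have c2 : |x 0 1| * Ef m q t ≤ ‖x 0‖ * 1 := mul_le_mul a1 e1 e0.le n0
  linarith

end traj

lemma log_div_tendsto {C : ℝ} (hC : 0 < C) :
    Tendsto (fun t : ℝ => 1 / t * Real.log (C * t)) atTop (𝓝 0) := by
  have h1 : Tendsto (fun x : ℝ => Real.log x / x) atTop (𝓝 0) := by
    simpa using Real.isLittleO_log_id_atTop.tendsto_div_nhds_zero
  have h2 : Tendsto (fun t : ℝ => C * t) atTop atTop := Tendsto.const_mul_atTop hC tendsto_id
  have h3 := (h1.comp h2).const_mul C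
  rw [mul_zero] at h3
  refine h3.congr' ?_
  filter_upwards [eventually_gt_atTop 0] with t ht
  simp only [Function.comp]
  field_simp

lemma lyap_le {m : ℝ} (hm : 1 < m) : lyapunovExponent (fam m) ≤ 0 := by
  refine iSup₂_le fun x hx => ?_
  have hm0 : 0 < m := by linarith
  set C : ℝ := 3 * (‖x 0‖ + 1) with hC
  have hC0 : 0 < C := by positivity
  have hb : ∀ t : ℝ, 1 ≤ t → ‖x t‖ ≤ C * t := by
    intro t ht
    have h1 := traj_bound hm hx (by linarith : 0 < t)
    have h2 : t ^ (1 - 1 / m) ≤ t := by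
      calc t ^ (1 - 1 / m) ≤ t ^ (1:ℝ) :=
            Real.rpow_le_rpow_of_exponent_le ht (by have : 0 < 1 / m := by positivity
                                                    linarith)
        _ = t := Real.rpow_one t
    have h3 : ‖x 0‖ * (2 + t ^ (1 - 1 / m)) ≤ ‖x 0‖ * (3 * t) :=
      mul_le_mul_of_nonneg_left (by linarith) (norm_nonneg _)
    rw [hC]
    nlinarith [norm_nonneg (x 0)]
  have h1 : Tendsto (fun t : ℝ => ((1 / t * Real.log (C * t) : ℝ) : EReal)) atTop (𝓝 0) :=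
    (continuous_coe_real_ereal.tendsto 0).comp (log_div_tendsto hC0)
  rw [← h1.limsup_eq]
  refine limsup_le_limsup ?_
  filter_upwards [eventually_ge_atTop 1] with t ht
  have ht0 : 0 < t := by linarith
  rw [EReal.coe_mul]
  refine mul_le_mul_of_nonneg_left ?_ (EReal.coe_nonneg.mpr (by positivity))
  rw [← ENNReal.log_ofReal_of_pos (by positivity : 0 < C * t)]
  apply ENNReal.log_monotone
  rw [← ofReal_norm]
  exact ENNReal.ofReal_le_ofReal (hb t ht)

lemma lyap_ge {m : ℝ} (hm : 1 < m) : 0 ≤ lyapunovExponent (fam m) := by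
  have hT := X_traj hm (q := fun _ => 0) measurable_const (fun _ => ⟨le_rfl, zero_le_one⟩) 1 0
  refine le_trans ?_ (le_iSup₂ (f := fun (x : ℝ → EuclideanSpace ℝ (Fin 2))
    (_ : x ∈ {x : ℝ → EuclideanSpace ℝ (Fin 2) | IsTraj (fam m) x}) =>
    limsup (fun t : ℝ => ((1 / t : ℝ) : EReal) * ENNReal.log ‖x t‖ₑ) atTop) _ hT)
  have h1 : ∀ t : ℝ, ‖X m (fun _ => 0) 1 0 t‖ₑ = 1 := by
    intro t
    rw [← ofReal_norm]
    simp [X]
  simp [h1]

/-- the control of the unbounded trajectory -/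
noncomputable def qu (t : ℝ) : ℝ := 1 / (1 + |t|)

lemma qu_meas : Measurable qu := by unfold qu; fun_prop

lemma qu01 (t : ℝ) : 0 ≤ qu t ∧ qu t ≤ 1 := by
  unfold qu
  have := abs_nonneg t
  refine ⟨by positivity, ?_⟩
  rw [div_le_one (by linarith)]; linarith

lemma Q_qu {m : ℝ} (hm : 1 < m) {t : ℝ} (ht : 0 ≤ t) : Q m qu t ≤ 1 / (m - 1) := by
  unfold Q
  have hm1 : 0 < m - 1 := by linarith
  have h1 : ∫ s in (0:ℝ)..t, qu s ^ m = ∫ s in (0:ℝ)..t, (1 + s) ^ (-m) := by
    apply intervalIntegral.integral_congr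
    intro s hs
    rw [uIcc_of_le ht] at hs
    have : 0 < 1 + s := by linarith [hs.1]
    simp only [qu]
    rw [abs_of_nonneg hs.1, Real.div_rpow zero_le_one this.le, Real.one_rpow, Real.rpow_neg this.le,
      one_div]
  have h2 : ∫ s in (0:ℝ)..t, (1 + s) ^ (-m) =
      (-(1 + t) ^ (1 - m) / (m - 1)) - (-(1 + 0) ^ (1 - m) / (m - 1)) := by
    apply intervalIntegral.integral_eq_sub_of_hasDerivAt
    · intro s hs
      rw [uIcc_of_le ht] at hs
      have h0 : 0 < 1 + s := by linarith [hs.1]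
      have h3 := ((hasDerivAt_id s).const_add 1).rpow_const (p := 1 - m) (Or.inl h0.ne')
      have h4 := (h3.fun_neg).div_const (m - 1)
      refine h4.congr_deriv ?_
      simp only [id]
      have e : (1 - m - 1 : ℝ) = -m := by ring
      rw [e]
      field_simp
      ring
    · apply ContinuousOn.intervalIntegrable
      intro s hs
      rw [uIcc_of_le ht] at hs
      have h0 : 0 < 1 + s := by linarith [hs.1]
      apply ContinuousAt.continuousWithinAt
      exact (continuousAt_const.add continuousAt_id).rpow_const (Or.inl h0.ne')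
  rw [h1, h2]
  have h3 : 0 ≤ (1 + t) ^ (1 - m) := Real.rpow_nonneg (by linarith) _
  rw [add_zero, Real.one_rpow]
  have h4 : -(1 + t) ^ (1 - m) / (m - 1) ≤ 0 := by
    apply div_nonpos_of_nonpos_of_nonneg <;> linarith
  have h5 : -1 / (m - 1) = -(1 / (m - 1)) := by ring
  linarith

lemma unbdd {m : ℝ} (hm : 1 < m) :
    ∃ x : ℝ → EuclideanSpace ℝ (Fin 2), IsTraj (fam m) x ∧ ¬ ∃ C : ℝ, ∀ t : ℝ, 0 ≤ t → ‖x t‖ ≤ C := by
  refine ⟨X m qu 0 1, X_traj hm qu_meas qu01 0 1, ?_⟩
  rintro ⟨C, hC⟩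
  set c : ℝ := Real.exp (-(1 / (m - 1))) with hc
  have hc0 : 0 < c := Real.exp_pos _
  have hlow : ∀ t : ℝ, 0 ≤ t → c * Real.log (1 + t) ≤ C := by
    intro t ht
    refine le_trans ?_ (hC t ht)
    refine le_trans ?_ (le_nrm _ 0)
    rw [X_zero_apply, zero_add, one_mul]
    refine le_trans ?_ (le_abs_self _)
    have h1 : ∫ s in (0:ℝ)..t, c * (1 + s)⁻¹ = c * Real.log (1 + t) := by
      rw [intervalIntegral.integral_const_mul]
      congr 1
      have : ∫ s in (0:ℝ)..t, (1 + s)⁻¹ = Real.log (1 + t) - Real.log (1 + 0) := by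
        apply intervalIntegral.integral_eq_sub_of_hasDerivAt
        · intro s hs
          rw [uIcc_of_le ht] at hs
          have h0 : 0 < 1 + s := by linarith [hs.1]
          have := ((hasDerivAt_id s).const_add 1).log h0.ne'
          simpa using this
        · apply ContinuousOn.intervalIntegrable
          intro s hs
          rw [uIcc_of_le ht] at hs
          have h0 : 0 < 1 + s := by linarith [hs.1]
          apply ContinuousAt.continuousWithinAt
          exact (continuousAt_const.add continuousAt_id).inv₀ h0.ne'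
      rw [this]; simp
    rw [← h1]
    apply intervalIntegral.integral_mono_on ht
    · apply IntervalIntegrable.const_mul
      apply ContinuousOn.intervalIntegrable
      intro s hs
      rw [uIcc_of_le ht] at hs
      have h0 : 0 < 1 + s := by linarith [hs.1]
      apply ContinuousAt.continuousWithinAt
      exact (continuousAt_const.add continuousAt_id).inv₀ h0.ne'
    · exact Ef_intble hm qu_meas qu01 qu_meas (q_abs qu01) ht
    · intro s hs
      have h0 : 0 < 1 + s := by linarith [hs.1]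
      have h2 : qu s = (1 + s)⁻¹ := by simp [qu, abs_of_nonneg hs.1]
      rw [h2, mul_comm]
      apply mul_le_mul_of_nonneg_left _ (by positivity)
      rw [hc]
      unfold Ef
      apply Real.exp_le_exp.mpr
      linarith [Q_qu hm hs.1]
  have h1 : Tendsto (fun t : ℝ => c * Real.log (1 + t)) atTop atTop := by
    apply Tendsto.const_mul_atTop hc0
    exact Real.tendsto_log_atTop.comp (tendsto_atTop_add_const_left _ _ tendsto_id)
  obtain ⟨t, ht, ht0⟩ := ((h1.eventually_gt_atTop C).and (eventually_ge_atTop 0)).exists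
  exact absurd (hlow t ht0) (not_le.mpr ht)

lemma max_le {m : ℝ} (hm : 1 < m) {t : ℝ} (ht : 1 ≤ t) :
    maxGrowth (fam m) t ≤ ENNReal.ofReal (3 * t ^ (1 - 1 / m)) := by
  refine iSup₂_le fun x hx => ?_
  rw [← ofReal_norm]
  apply ENNReal.ofReal_le_ofReal
  have h1 := traj_bound hm hx.1 (by linarith : 0 < t)
  have h2 : 1 ≤ t ^ (1 - 1 / m) := by
    apply Real.one_le_rpow ht
    rw [sub_nonneg, div_le_one (by linarith)]; exact hm.le
  have h3 := hx.2
  have h4 := norm_nonneg (x 0)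
  nlinarith

lemma max_ge {m : ℝ} (hm : 1 < m) {t : ℝ} (ht : 1 ≤ t) :
    ENNReal.ofReal (t ^ (1 - 1 / m) / 3) ≤ maxGrowth (fam m) t := by
  have ht0 : 0 < t := by linarith
  have hm0 : 0 < m := by linarith
  set p : ℝ := t ^ (-(1 / m)) with hp
  have hp0 : 0 < p := Real.rpow_pos_of_pos ht0 _
  have hp1 : p ≤ 1 := Real.rpow_le_one_of_one_le_of_nonpos ht (by
    have : 0 < 1 / m := by positivity
    linarith)
  have h01 : ∀ s : ℝ, 0 ≤ (fun _ : ℝ => p) s ∧ (fun _ : ℝ => p) s ≤ 1 := fun _ => ⟨hp0.le, hp1⟩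
  have hT := X_traj hm (q := fun _ => p) measurable_const h01 0 1
  have hx0 : ‖X m (fun _ => p) 0 1 0‖ ≤ 1 := by
    simp [X, Ef_zero]
  refine le_trans ?_ (le_iSup₂ (f := fun (x : ℝ → EuclideanSpace ℝ (Fin 2))
    (_ : x ∈ {x : ℝ → EuclideanSpace ℝ (Fin 2) | IsTraj (fam m) x ∧ ‖x 0‖ ≤ 1}) => ‖x t‖ₑ) _ ⟨hT, hx0⟩)
  rw [← ofReal_norm]
  apply ENNReal.ofReal_le_ofReal
  refine le_trans ?_ (le_nrm _ 0)
  rw [X_zero_apply, zero_add, one_mul]
  refine le_trans ?_ (le_abs_self _)
  have hE : ∀ s ∈ Icc 0 t, Real.exp (-1) ≤ Ef m (fun _ => p) s := by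
    intro s hs
    unfold Ef Q
    apply Real.exp_le_exp.mpr
    rw [intervalIntegral.integral_const, sub_zero, smul_eq_mul]
    have h1 : p ^ m = t⁻¹ := by
      rw [hp, ← Real.rpow_mul ht0.le, neg_mul, one_div, inv_mul_cancel₀ hm0.ne', Real.rpow_neg_one]
    rw [h1]
    have h2 : s * t⁻¹ ≤ 1 := by
      rw [mul_inv_le_iff₀ ht0]; linarith [hs.2]
    linarith
  have h1 : ∫ s in (0:ℝ)..t, p * Real.exp (-1) ≤ ∫ s in (0:ℝ)..t, p * Ef m (fun _ => p) s := by
    apply intervalIntegral.integral_mono_on ht0.le intervalIntegrable_const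
    · exact Ef_intble hm measurable_const h01 (g := fun _ => p) measurable_const
        (fun s => by rw [abs_of_pos hp0]; exact hp1) ht0.le
    · intro s hs
      exact mul_le_mul_of_nonneg_left (hE s hs) hp0.le
  refine le_trans ?_ h1
  rw [intervalIntegral.integral_const, sub_zero, smul_eq_mul]
  have h7 : t * p = t ^ (1 - 1 / m) := by
    rw [hp, sub_eq_add_neg, Real.rpow_add ht0, Real.rpow_one]
  rw [← mul_assoc, h7]
  have h8 : 0 < t ^ (1 - 1 / m) := Real.rpow_pos_of_pos ht0 _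
  have h9 : (1:ℝ) / 3 ≤ Real.exp (-1) := by
    rw [Real.exp_neg, one_div]
    apply inv_anti₀ (Real.exp_pos 1)
    linarith [Real.exp_one_lt_d9]
  have : t ^ (1 - 1 / m) / 3 = t ^ (1 - 1 / m) * (1 / 3) := by ring
  rw [this]
  exact mul_le_mul_of_nonneg_left h9 h8.le

/-- For every exponent `b` in `(0,1)` there is a compact set of real `2 × 2` matrices whose
continuous-time switching system is marginally unstable and has sublinear growth; moreover the
largest growth `M(t)` is between `t^b / 3` and `3 t^b` for all `t ≥ 1`. -/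
theorem result : ∀ b : ℝ, 0 < b → b < 1 → ∃ S : Set (Matrix (Fin 2) (Fin 2) ℝ),
    IsCompact S ∧ MarginallyUnstable S ∧ HasSublinearGrowth S ∧
    ∀ t : ℝ, 1 ≤ t → ENNReal.ofReal (t ^ b / 3) ≤ maxGrowth S t ∧
      maxGrowth S t ≤ ENNReal.ofReal (3 * t ^ b) := by
  intro b hb0 hb1
  set m : ℝ := 1 / (1 - b) with hmdef
  have h1b : 0 < 1 - b := by linarith
  have hm : 1 < m := by
    rw [hmdef, lt_div_iff₀ h1b]; linarith
  have hexp : 1 - 1 / m = b := by
    rw [hmdef, one_div_one_div]; ring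
  refine ⟨fam m, fam_compact hm, ⟨le_antisymm (lyap_le hm) (lyap_ge hm), unbdd hm⟩, ?_, ?_⟩
  · unfold HasSublinearGrowth
    have h1 : Tendsto (fun t : ℝ => ENNReal.ofReal (3 * t ^ (b - 1))) atTop (𝓝 0) := by
      have h2 : Tendsto (fun t : ℝ => 3 * t ^ (b - 1)) atTop (𝓝 (3 * 0)) := by
        apply Tendsto.const_mul
        have := tendsto_rpow_neg_atTop h1b
        simpa [neg_sub] using this
      rw [mul_zero] at h2
      have := ENNReal.tendsto_ofReal h2
      simpa using this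
    refine tendsto_of_tendsto_of_tendsto_of_le_of_le' tendsto_const_nhds h1
      (Eventually.of_forall fun t => bot_le) ?_
    filter_upwards [eventually_ge_atTop 1] with t ht
    have ht0 : 0 < t := by linarith
    have h2 := max_le hm ht
    rw [hexp] at h2
    calc maxGrowth (fam m) t / ENNReal.ofReal t ≤ ENNReal.ofReal (3 * t ^ b) / ENNReal.ofReal t :=
          ENNReal.div_le_div_right h2 _
      _ = ENNReal.ofReal (3 * t ^ (b - 1)) := by
          rw [← ENNReal.ofReal_div_of_pos ht0, Real.rpow_sub ht0, Real.rpow_one, mul_div_assoc]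
  · intro t ht
    have h1 := max_ge hm ht
    have h2 := max_le hm ht
    rw [hexp] at h1 h2
    exact ⟨h1, h2⟩

end Pool.Agent.Results.MP_c2c39f_an.SublinearGrowth

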